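import Pool.Agent.E8helper59.TS.Stm3
import Pool.Agent.E8helper74.TS.Cap
import Pool.Agent.E8helper5.TS.Half

/-!
# Project TS (helper59), piece TS25 (VOLG): the data of a smallest parallelotope
-/

set_option autoImplicit false
open MeasureTheory Set Filter Topology
open scoped Pointwise ENNReal

namespace Pool.Agent.E8helper54.TS

open Pool.Agent.E8helper59.TS
open Pool.Agent.E8helper74.TS (vol_image vol_cube2 vol_cubem)

theorem haarG (k m : ℕ) : (volume : Measure (G k m)).IsAddHaarMeasure :=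
  Measure.prod.instIsAddHaarMeasure (volume : Measure (Fin k → ℝ × ℝ))
    (volume : Measure (Fin m → ℝ))

theorem vol_cubeG (k m : ℕ) : volume (Icc (0 : G k m) 1) = 1 := by
  have h1 : Icc (0 : G k m) 1 = (Icc (0 : Fin k → ℝ × ℝ) 1) ×ˢ Icc (0 : Fin m → ℝ) 1 := by
    rw [Icc_prod_eq]; rfl
  have h2 : (Icc (0 : Fin k → ℝ × ℝ) 1) = Set.pi univ (fun _ => Icc (0 : ℝ × ℝ) 1) := by
    rw [← pi_univ_Icc]; rfl
  rw [h1, Measure.volume_eq_prod, Measure.prod_prod, vol_cubem, h2, volume_pi_pi]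
  simp [vol_cube2]

/-- the determinant -/
noncomputable def dt (L : (ℝ × ℝ) ≃L[ℝ] (ℝ × ℝ)) : ℝ :=
  LinearMap.det ((L : (ℝ × ℝ) →L[ℝ] (ℝ × ℝ)) : (ℝ × ℝ) →ₗ[ℝ] (ℝ × ℝ))

theorem dt_pos (L : (ℝ × ℝ) ≃L[ℝ] (ℝ × ℝ)) : 0 < |dt L| := by
  rw [abs_pos]
  exact (LinearEquiv.isUnit_det' L.toLinearEquiv).ne_zero

theorem dt_symm (L : (ℝ × ℝ) ≃L[ℝ] (ℝ × ℝ)) : |dt L.symm| = |dt L|⁻¹ := by
  have h : dt L.symm * dt L = 1 := LinearEquiv.det_symm_mul_det L.toLinearEquiv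
  have h2 : |dt L.symm| * |dt L| = 1 := by rw [← abs_mul, h, abs_one]
  exact eq_inv_of_mul_eq_one_left h2

/-- `L` maps `B` into the square -/
def Sq (B : Set (ℝ × ℝ)) (L : (ℝ × ℝ) ≃L[ℝ] (ℝ × ℝ)) : Prop :=
  ∀ p ∈ B, |(L p).1| ≤ 1 / 2 ∧ |(L p).2| ≤ 1 / 2

theorem vol_le {B : Set (ℝ × ℝ)} {L : (ℝ × ℝ) ≃L[ℝ] (ℝ × ℝ)} (hL : Sq B L) :
    ENNReal.ofReal |dt L| * volume B ≤ 1 := by
  have h1 := vol_image volume (0 : ℝ × ℝ) L B
  have h2 : (fun x => (0 : ℝ × ℝ) + L x) '' B ⊆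
      (Icc (-(1 / 2) : ℝ) (1 / 2)) ×ˢ (Icc (-(1 / 2) : ℝ) (1 / 2)) := by
    rintro _ ⟨p, hp, rfl⟩
    obtain ⟨ha, hb⟩ := hL p hp
    rw [abs_le] at ha hb
    simp only [zero_add]
    exact ⟨⟨ha.1, ha.2⟩, ⟨hb.1, hb.2⟩⟩
  have h3 : volume ((Icc (-(1 / 2) : ℝ) (1 / 2)) ×ˢ (Icc (-(1 / 2) : ℝ) (1 / 2))) = 1 := by
    rw [Measure.volume_eq_prod, Measure.prod_prod, Real.volume_Icc]
    norm_num
  calc ENNReal.ofReal |dt L| * volume B = volume ((fun x => (0 : ℝ × ℝ) + L x) '' B) := h1.symm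
    _ ≤ 1 := by rw [← h3]; exact measure_mono h2

theorem exists_A {B : Set (ℝ × ℝ)} (hB : Bod B) : ∃ A : ℝ, 0 < A ∧ Cap A B ∧
    ∀ ε : ℝ, 0 < ε → ∃ L : (ℝ × ℝ) ≃L[ℝ] (ℝ × ℝ), Sq B L ∧ A ≤ |dt L|⁻¹ ∧ |dt L|⁻¹ < A + ε := by
  set S : Set ℝ := {a | ∃ L : (ℝ × ℝ) ≃L[ℝ] (ℝ × ℝ), Sq B L ∧ a = |dt L|⁻¹} with hS
  have hpos : 0 < volume B :=
    lt_of_lt_of_le (isOpen_interior.measure_pos volume hB.int) (measure_mono interior_subset)
  have hfin : volume B ≠ ⊤ := hB.comp.measure_lt_top.ne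
  have hv : 0 < (volume B).toReal := ENNReal.toReal_pos hpos.ne' hfin
  have hlow : ∀ a ∈ S, (volume B).toReal ≤ a := by
    rintro a ⟨L, hL, rfl⟩
    have h1 := vol_le hL
    have h2 : |dt L| * (volume B).toReal ≤ 1 := by
      have h3 := ENNReal.toReal_mono (by norm_num) h1
      rwa [ENNReal.toReal_mul, ENNReal.toReal_ofReal (abs_nonneg _), ENNReal.toReal_one] at h3
    rw [← one_div, le_div_iff₀ (dt_pos L)]
    linarith
  have hbdd : BddBelow S := ⟨_, hlow⟩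
  have hne : S.Nonempty := by
    obtain ⟨R, hR, hR'⟩ := hB.comp.isBounded.exists_pos_norm_le
    have hc : (1 / (2 * R)) ≠ 0 := by positivity
    refine ⟨_, (LinearEquiv.smulOfNeZero ℝ (ℝ × ℝ) (1 / (2 * R)) hc).toContinuousLinearEquiv,
      ?_, rfl⟩
    intro p hp
    have h1 := hR' p hp
    have h2 : |p.1| ≤ R := (norm_fst_le p).trans h1
    have h3 : |p.2| ≤ R := (norm_snd_le p).trans h1
    have e : ∀ x : ℝ, |x| ≤ R → |1 / (2 * R) * x| ≤ 1 / 2 := by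
      intro x hx
      rw [abs_mul, abs_of_pos (by positivity : 0 < 1 / (2 * R))]
      calc 1 / (2 * R) * |x| ≤ 1 / (2 * R) * R := by gcongr
        _ = 1 / 2 := by field_simp
    exact ⟨e _ h2, e _ h3⟩
  refine ⟨sInf S, lt_of_lt_of_le hv (le_csInf hne hlow), ?_, ?_⟩
  · intro L hL
    have h1 : sInf S ≤ |dt L|⁻¹ := csInf_le hbdd ⟨L, hL, rfl⟩
    have h2 := mul_le_mul_of_nonneg_right h1 (dt_pos L).le
    rw [inv_mul_cancel₀ (dt_pos L).ne'] at h2
    exact h2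
  · intro ε hε
    obtain ⟨a, ⟨L, hL, rfl⟩, ha⟩ := exists_lt_of_csInf_lt hne (lt_add_of_pos_right (sInf S) hε)
    exact ⟨L, hL, csInf_le hbdd ⟨L, hL, rfl⟩, ha⟩

theorem box_of {D : Set (ℝ × ℝ)} (hDc : IsCompact D) (hne : D.Nonempty)
    (L : (ℝ × ℝ) ≃L[ℝ] (ℝ × ℝ)) (hL : Sq (Half D) L) :
    ∃ a : ℝ × ℝ, ∀ p ∈ D, L p - a ∈ Icc (0 : ℝ × ℝ) 1 := by
  obtain ⟨k₁, hk₁, hm₁⟩ := hDc.exists_isMinOn hne (f := fun p => (L p).1) (by fun_prop)
  obtain ⟨k₂, hk₂, hm₂⟩ := hDc.exists_isMinOn hne (f := fun p => (L p).2) (by fun_prop)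
  have hd : ∀ k ∈ D, ∀ k' ∈ D, |(L k).1 - (L k').1| ≤ 1 ∧ |(L k).2 - (L k').2| ≤ 1 := by
    intro k hk k' hk'
    have h := hL ((1 / 2 : ℝ) • (k - k')) ⟨k, hk, k', hk', rfl⟩
    rw [map_smul, map_sub] at h
    simp only [Prod.smul_fst, Prod.smul_snd, Prod.fst_sub, Prod.snd_sub, smul_eq_mul, abs_mul] at h
    have h2 : |(1 / 2 : ℝ)| = 1 / 2 := by norm_num
    rw [h2] at h
    exact ⟨by linarith [h.1], by linarith [h.2]⟩
  refine ⟨((L k₁).1, (L k₂).2), fun p hp => ?_⟩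
  have h1 : (L k₁).1 ≤ (L p).1 := hm₁ hp
  have h2 : (L k₂).2 ≤ (L p).2 := hm₂ hp
  have h3 : (L p).1 ≤ (L k₁).1 + 1 := by
    have := (hd p hp k₁ hk₁).1
    rw [abs_le] at this
    linarith [this.2]
  have h4 : (L p).2 ≤ (L k₂).2 + 1 := by
    have := (hd p hp k₂ hk₂).2
    rw [abs_le] at this
    linarith [this.2]
  refine ⟨⟨?_, ?_⟩, ⟨?_, ?_⟩⟩
  · show (0 : ℝ) ≤ (L p - ((L k₁).1, (L k₂).2)).1
    rw [Prod.fst_sub]; linarith
  · show (0 : ℝ) ≤ (L p - ((L k₁).1, (L k₂).2)).2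
    rw [Prod.snd_sub]; linarith
  · show (L p - ((L k₁).1, (L k₂).2)).1 ≤ (1 : ℝ)
    rw [Prod.fst_sub]; linarith
  · show (L p - ((L k₁).1, (L k₂).2)).2 ≤ (1 : ℝ)
    rw [Prod.snd_sub]; linarith

/-- the bound for one choice of the parallelograms -/
theorem vol_bound {k m : ℕ} {K P₀ : Set (G k m)} (hK : IsCompact K) (hne : K.Nonempty)
    (hmin : ∀ P, PtopeG k m P → K ⊆ P → volume P₀ ≤ volume P)
    (L : Fin k → ((ℝ × ℝ) ≃L[ℝ] (ℝ × ℝ))) (hL : ∀ i, Sq (Half (Pr k m i K)) (L i))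
    (b w : Fin m → ℝ) (hw : ∀ j, 0 < w j) (hb : ∀ x ∈ K, ∀ j, b j ≤ x.2 j ∧ x.2 j ≤ b j + w j) :
    (volume P₀).toReal ≤ (∏ i, |dt (L i)|⁻¹) * ∏ j, w j := by
  have hbox : ∀ i, ∃ a : ℝ × ℝ, ∀ p ∈ Pr k m i K, L i p - a ∈ Icc (0 : ℝ × ℝ) 1 := by
    intro i
    exact box_of (hK.image (by fun_prop)) (hne.image _) (L i) (hL i)
  choose a ha using hbox
  let M1 : (Fin k → ℝ × ℝ) ≃L[ℝ] (Fin k → ℝ × ℝ) :=
    ContinuousLinearEquiv.piCongrRight (fun i => (L i).symm)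
  let M2 : (Fin m → ℝ) ≃L[ℝ] (Fin m → ℝ) := ContinuousLinearEquiv.piCongrRight (fun j =>
    (LinearEquiv.smulOfNeZero ℝ ℝ (w j) (hw j).ne').toContinuousLinearEquiv)
  let M : G k m ≃L[ℝ] G k m := M1.prodCongr M2
  have hM : ∀ x : G k m, M x = (fun i => (L i).symm (x.1 i), fun j => w j * x.2 j) := fun x => rfl
  set v : G k m := (fun i => (L i).symm (a i), b) with hv
  set P : Set (G k m) := (fun x => v + M x) '' Icc 0 1 with hP
  have hPt : PtopeG k m P := ⟨v, M, rfl⟩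
  have hsub : K ⊆ P := by
    intro x hx
    refine ⟨(fun i => L i (x.1 i) - a i, fun j => (x.2 j - b j) / w j), ?_, ?_⟩
    · refine ⟨⟨fun i => (ha i (x.1 i) ⟨x, hx, rfl⟩).1, fun j => ?_⟩,
        ⟨fun i => (ha i (x.1 i) ⟨x, hx, rfl⟩).2, fun j => ?_⟩⟩
      · show (0 : ℝ) ≤ (x.2 j - b j) / w j
        have := (hb x hx j).1
        have := hw j
        apply div_nonneg <;> linarith
      · show (x.2 j - b j) / w j ≤ (1 : ℝ)
        rw [div_le_one (hw j)]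
        linarith [(hb x hx j).2]
    · show v + M (fun i => L i (x.1 i) - a i, fun j => (x.2 j - b j) / w j) = x
      rw [hM, hv]
      refine Prod.ext ?_ ?_
      · funext i
        show (L i).symm (a i) + (L i).symm (L i (x.1 i) - a i) = x.1 i
        rw [← map_add, add_sub_cancel, ContinuousLinearEquiv.symm_apply_apply]
      · funext j
        show b j + w j * ((x.2 j - b j) / w j) = x.2 j
        have := (hw j).ne'
        field_simp
        ring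
  have hle := hmin P hPt hsub
  have hPsub : P ⊆ (Set.pi univ (fun i => (fun p => (L i).symm (a i) + (L i).symm p) ''
      Icc (0 : ℝ × ℝ) 1)) ×ˢ (Set.pi univ (fun j => Icc (b j) (b j + w j))) := by
    rintro _ ⟨x, hx, rfl⟩
    refine ⟨fun i _ => ⟨x.1 i, ⟨hx.1.1 i, hx.2.1 i⟩, rfl⟩, fun j _ => ?_⟩
    show b j + w j * x.2 j ∈ Icc (b j) (b j + w j)
    have h0 : (0 : ℝ) ≤ x.2 j := hx.1.2 j
    have h1 : x.2 j ≤ (1 : ℝ) := hx.2.2 j
    have h2 := hw j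
    constructor
    · have := mul_nonneg h2.le h0
      linarith
    · have := mul_le_mul_of_nonneg_left h1 h2.le
      linarith
  have hvol : volume ((Set.pi univ (fun i => (fun p => (L i).symm (a i) + (L i).symm p) ''
      Icc (0 : ℝ × ℝ) 1)) ×ˢ (Set.pi univ (fun j => Icc (b j) (b j + w j))) : Set (G k m)) =
      ENNReal.ofReal ((∏ i, |dt (L i)|⁻¹) * ∏ j, w j) := by
    rw [Measure.volume_eq_prod, Measure.prod_prod, volume_pi_pi, volume_pi_pi,
      ENNReal.ofReal_mul (Finset.prod_nonneg fun i _ => inv_nonneg.2 (abs_nonneg _)),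
      ENNReal.ofReal_prod_of_nonneg (fun i _ => inv_nonneg.2 (abs_nonneg _)),
      ENNReal.ofReal_prod_of_nonneg (fun j _ => (hw j).le)]
    congr 1
    · refine Finset.prod_congr rfl fun i _ => ?_
      rw [vol_image volume ((L i).symm (a i)) (L i).symm (Icc 0 1), vol_cube2, mul_one, ← dt_symm]
      rfl
    · refine Finset.prod_congr rfl fun j _ => ?_
      rw [Real.volume_Icc]
      congr 1
      ring
  have h1 := hle.trans (measure_mono hPsub)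
  rw [hvol] at h1
  refine ENNReal.toReal_le_of_le_ofReal ?_ h1
  exact mul_nonneg (Finset.prod_nonneg fun i _ => inv_nonneg.2 (abs_nonneg _))
    (Finset.prod_nonneg fun j _ => (hw j).le)

theorem t_VOLG : S_VOLG := by
  intro k m K P₀ hK hKv hKi hP hmin
  have := haarG k m
  obtain ⟨v₀, L₀, hP₀⟩ := hP
  have hvol : volume P₀ =
      ENNReal.ofReal |LinearMap.det ((L₀ : G k m →L[ℝ] G k m) : G k m →ₗ[ℝ] G k m)| := by
    rw [hP₀, vol_image volume v₀ L₀ (Icc 0 1), vol_cubeG, mul_one]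
  have hdet : 0 < |LinearMap.det ((L₀ : G k m →L[ℝ] G k m) : G k m →ₗ[ℝ] G k m)| := by
    rw [abs_pos]
    exact (LinearEquiv.isUnit_det' L₀.toLinearEquiv).ne_zero
  have hreal : (volume P₀).toReal =
      |LinearMap.det ((L₀ : G k m →L[ℝ] G k m) : G k m →ₗ[ℝ] G k m)| := by
    rw [hvol, ENNReal.toReal_ofReal hdet.le]
  have hfin : volume P₀ ≠ ⊤ := by rw [hvol]; exact ENNReal.ofReal_ne_top
  refine ⟨by rw [hreal]; exact hdet, hfin, ?_⟩
  have hne : K.Nonempty := hKi.mono interior_subset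
  obtain ⟨q, hq⟩ := hKi
  -- the planar data
  have hbod : ∀ i, Bod (Half (Pr k m i K)) := by
    intro i
    apply Pool.Agent.E8helper5.TS.t_HALF
    · exact hK.image (by fun_prop)
    · have := hKv.linear_image ((LinearMap.proj (R := ℝ) (φ := fun _ : Fin k => ℝ × ℝ) i).comp
        (LinearMap.fst ℝ (Fin k → ℝ × ℝ) (Fin m → ℝ)))
      exact this
    · have ho : IsOpenMap (fun x : G k m => x.1 i) :=
        (isOpenMap_eval i).comp isOpenMap_fst
      refine ⟨q.1 i, ?_⟩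
      rw [mem_interior]
      exact ⟨(fun x : G k m => x.1 i) '' interior K, image_mono interior_subset,
        ho _ isOpen_interior, ⟨q, hq, rfl⟩⟩
  choose A hA0 hAcap hAε using fun i => exists_A (hbod i)
  -- the widths
  have hwid : ∀ j : Fin m, ∃ x ∈ K, ∃ y ∈ K, (∀ z ∈ K, y.2 j ≤ z.2 j ∧ z.2 j ≤ x.2 j) ∧
      y.2 j < x.2 j := by
    intro j
    obtain ⟨y, hy, hym⟩ := hK.exists_isMinOn hne (f := fun z : G k m => z.2 j) (by fun_prop)
    obtain ⟨x, hx, hxm⟩ := hK.exists_isMaxOn hne (f := fun z : G k m => z.2 j) (by fun_prop)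
    refine ⟨x, hx, y, hy, fun z hz => ⟨hym hz, hxm hz⟩, ?_⟩
    -- two points of the interior with different coordinates
    have hc : Continuous (fun s : ℝ => (q.1, Function.update q.2 j (q.2 j + s))) := by
      refine continuous_const.prodMk ?_
      exact Continuous.update continuous_const j (by fun_prop)
    have h0 : (fun s : ℝ => ((q.1, Function.update q.2 j (q.2 j + s)) : G k m)) 0 = q := by
      simp
    have hev : ∀ᶠ s in 𝓝 (0 : ℝ), ((q.1, Function.update q.2 j (q.2 j + s)) : G k m) ∈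
        interior K := by
      apply hc.continuousAt.eventually_mem
      apply isOpen_interior.mem_nhds
      have h0' : ((q.1, Function.update q.2 j (q.2 j + 0)) : G k m) = q := h0
      rw [h0']
      exact hq
    obtain ⟨δ, hδ, hball⟩ := Metric.eventually_nhds_iff.1 hev
    have hs : ((q.1, Function.update q.2 j (q.2 j + δ / 2)) : G k m) ∈ interior K :=
      hball (by rw [Real.dist_eq, sub_zero, abs_of_pos (by positivity)]; linarith)
    have h1 : (fun z : G k m => z.2 j) y ≤ (fun z : G k m => z.2 j) q := hym (interior_subset hq)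
    have h2 := hxm (interior_subset hs)
    have h3 : q.2 j + δ / 2 ≤ x.2 j := by simpa using h2
    have h4 : y.2 j ≤ q.2 j := h1
    linarith
  choose X hX Y hY hXY hlt using hwid
  set w : Fin m → ℝ := fun j => (X j).2 j - (Y j).2 j with hw
  have hw0 : ∀ j, 0 < w j := fun j => sub_pos.2 (hlt j)
  refine ⟨A, w, ⟨fun i => ⟨hA0 i, hAcap i⟩, fun j => ⟨hw0 j, X j, hX j, Y j, hY j, le_rfl⟩⟩, ?_⟩
  -- the limit
  have hseq : ∀ (i : Fin k) (n : ℕ), ∃ L : (ℝ × ℝ) ≃L[ℝ] (ℝ × ℝ), Sq (Half (Pr k m i K)) L ∧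
      A i ≤ |dt L|⁻¹ ∧ |dt L|⁻¹ < A i + 1 / ((n : ℝ) + 1) := fun i n =>
    hAε i _ Nat.one_div_pos_of_nat
  choose Λ hΛ1 hΛ2 hΛ3 using hseq
  have hlim : Tendsto (fun n : ℕ => (∏ i, |dt (Λ i n)|⁻¹) * ∏ j, w j) atTop
      (𝓝 ((∏ i, A i) * ∏ j, w j)) := by
    apply Tendsto.mul_const
    apply tendsto_finsetProd
    intro i _
    have h1 : Tendsto (fun n : ℕ => A i + 1 / ((n : ℝ) + 1)) atTop (𝓝 (A i + 0)) :=
      tendsto_const_nhds.add tendsto_one_div_add_atTop_nhds_zero_nat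
    rw [add_zero] at h1
    exact tendsto_of_tendsto_of_tendsto_of_le_of_le tendsto_const_nhds h1
      (fun n => hΛ2 i n) (fun n => (hΛ3 i n).le)
  refine ge_of_tendsto' hlim fun n => ?_
  refine vol_bound hK hne hmin (fun i => Λ i n) (fun i => hΛ1 i n) (fun j => (Y j).2 j) w hw0 ?_
  intro x hx j
  refine ⟨(hXY j x hx).1, ?_⟩
  have := (hXY j x hx).2
  simp only [hw]
  linarith

end Pool.Agent.E8helper54.TS
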